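import Mathlib

/-!
# MP_4ebd9a_co : emptying one of three vessels, the lower bound `h(N,3) ≥ 5·2^(N-1)`

A state is a triple `s : Fin 3 → ℕ`.  A pouring step picks `i ≠ j` with `s i ≤ s j`, doubles
entry `i` and subtracts `s i` from entry `j`.
-/

namespace Pool.Agent.Results.MP_4ebd9a_co.LowerBound

/-- A pouring step: for some `i ≠ j` with `s i ≤ s j` the entry `i` becomes `2 * s i`, the entry
`j` becomes `s j - s i`, and every other entry is unchanged. -/
def Step (s t : Fin 3 → ℕ) : Prop :=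
  ∃ i j : Fin 3, i ≠ j ∧ s i ≤ s j ∧ t i = 2 * s i ∧ t j = s j - s i ∧
    ∀ k, k ≠ i → k ≠ j → t k = s k

/-- `Pourable p s`: some sequence of at most `p` pouring steps starting from `s` produces a
triple with an entry equal to `0`. -/
def Pourable : ℕ → (Fin 3 → ℕ) → Prop
  | 0, s => ∃ i, s i = 0
  | p + 1, s => (∃ i, s i = 0) ∨ ∃ t, Step s t ∧ Pourable p t

/-- The set of totals `n > 0` such that every state (triple of positive integers) with total `n`
is `N`-pourable.  `h(N,3)` is the largest element of this set. -/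
def Good (N : ℕ) : Set ℕ :=
  {n | 0 < n ∧ ∀ s : Fin 3 → ℕ, (∀ i, 0 < s i) → s 0 + s 1 + s 2 = n → Pourable N s}

theorem Step.scale {s t : Fin 3 → ℕ} (c : ℕ) (h : Step s t) :
    Step (fun i => c * s i) (fun i => c * t i) := by
  obtain ⟨i, j, hij, hle, hi, hj, hk⟩ := h
  refine ⟨i, j, hij, Nat.mul_le_mul_left c hle, ?_, ?_, ?_⟩
  · simp only [hi]; ring
  · simp only [hj]; rw [Nat.mul_sub]
  · intro k h1 h2; simp only [hk k h1 h2]

theorem Pourable.scale (c : ℕ) : ∀ (p : ℕ) (s : Fin 3 → ℕ), Pourable p s →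
    Pourable p (fun i => c * s i)
  | 0, s, ⟨i, hi⟩ => ⟨i, by simp [hi]⟩
  | p + 1, s, Or.inl ⟨i, hi⟩ => Or.inl ⟨i, by simp [hi]⟩
  | p + 1, s, Or.inr ⟨t, hst, ht⟩ =>
      Or.inr ⟨fun i => c * t i, hst.scale c, Pourable.scale c p t ht⟩

theorem Pourable.of_zero (p : ℕ) {s : Fin 3 → ℕ} (h : ∃ i, s i = 0) : Pourable p s := by
  cases p with
  | zero => exact h
  | succ p => exact Or.inl h

theorem Pourable.succ : ∀ (p : ℕ) (s : Fin 3 → ℕ), Pourable p s → Pourable (p + 1) s
  | 0, s, h => Or.inl h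
  | p + 1, s, Or.inl h => Or.inl h
  | p + 1, s, Or.inr ⟨t, hst, ht⟩ => Or.inr ⟨t, hst, Pourable.succ p t ht⟩

/-- The halving step: if all states with total `n` are `N`-pourable then an all-even triple with
total `2 n` is `N`-pourable. -/
theorem even_case {N n : ℕ} (hn : n ∈ Good N) (s : Fin 3 → ℕ) (hev : ∀ i, Even (s i))
    (hs : s 0 + s 1 + s 2 = 2 * n) : Pourable N s := by
  choose t ht using hev
  by_cases hz : ∃ i, s i = 0
  · exact Pourable.of_zero N hz
  have hpos : ∀ i, 0 < t i := by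
    intro i
    rcases Nat.eq_zero_or_pos (t i) with h | h
    · exact absurd ⟨i, by rw [ht i, h]⟩ hz
    · exact h
  have hsum : t 0 + t 1 + t 2 = n := by
    have h0 := ht 0; have h1 := ht 1; have h2 := ht 2
    omega
  have h := Pourable.scale 2 N t (hn.2 t hpos hsum)
  have he : s = fun i => 2 * t i := by
    funext i; rw [ht i]; ring
  rw [he]; exact h

/-- Pouring between the two odd entries `i`, `j`. -/
theorem odd_case {N n : ℕ} (hn : n ∈ Good N) (s : Fin 3 → ℕ) (i j : Fin 3) (hij : i ≠ j)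
    (hi : Odd (s i)) (hj : Odd (s j)) (hk : ∀ k, k ≠ i → k ≠ j → Even (s k))
    (hle : s i ≤ s j) (hs : s 0 + s 1 + s 2 = 2 * n) : Pourable (N + 1) s := by
  let t : Fin 3 → ℕ := fun k => if k = i then 2 * s i else if k = j then s j - s i else s k
  have hti : t i = 2 * s i := by simp [t]
  have htj : t j = s j - s i := by simp [t, hij.symm]
  have htk : ∀ k, k ≠ i → k ≠ j → t k = s k := by intro k h1 h2; simp [t, h1, h2]
  refine Or.inr ⟨t, ⟨i, j, hij, hle, hti, htj, htk⟩, even_case hn t ?_ ?_⟩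
  · intro k
    by_cases h1 : k = i
    · subst h1; rw [hti]; exact even_two_mul _
    · by_cases h2 : k = j
      · subst h2; rw [htj]; exact Nat.Odd.sub_odd hj hi
      · rw [htk k h1 h2]; exact hk k h1 h2
  · have key : t 0 + t 1 + t 2 = s 0 + s 1 + s 2 := by
      fin_cases i <;> fin_cases j <;> simp_all [t] <;> omega
    rw [key, hs]

/-- If every state with total `n` is `N`-pourable, then every state with total `2 n` is
`(N+1)`-pourable. -/
theorem good_double {N n : ℕ} (hn : n ∈ Good N) : 2 * n ∈ Good (N + 1) := by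
  refine ⟨by have := hn.1; omega, ?_⟩
  intro s hpos hs
  have sw : ∀ i j : Fin 3, i ≠ j → Odd (s i) → Odd (s j) →
      (∀ k, k ≠ i → k ≠ j → Even (s k)) → Pourable (N + 1) s := by
    intro i j hij hi hj hk
    rcases Nat.le_total (s i) (s j) with h | h
    · exact odd_case hn s i j hij hi hj hk h hs
    · exact odd_case hn s j i hij.symm hj hi (fun k h1 h2 => hk k h2 h1) h hs
  rcases Nat.even_or_odd (s 0) with h0 | h0 <;> rcases Nat.even_or_odd (s 1) with h1 | h1 <;>
    rcases Nat.even_or_odd (s 2) with h2 | h2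
  · refine Pourable.succ N s (even_case hn s ?_ hs)
    intro i; fin_cases i <;> assumption
  · exfalso; obtain ⟨a, ha⟩ := h0; obtain ⟨b, hb⟩ := h1; obtain ⟨c, hc⟩ := h2; omega
  · exfalso; obtain ⟨a, ha⟩ := h0; obtain ⟨b, hb⟩ := h1; obtain ⟨c, hc⟩ := h2; omega
  · refine sw 1 2 (by decide) h1 h2 ?_
    intro k hk1 hk2; fin_cases k
    · exact h0
    · exact absurd rfl hk1
    · exact absurd rfl hk2
  · exfalso; obtain ⟨a, ha⟩ := h0; obtain ⟨b, hb⟩ := h1; obtain ⟨c, hc⟩ := h2; omega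
  · refine sw 0 2 (by decide) h0 h2 ?_
    intro k hk1 hk2; fin_cases k
    · exact absurd rfl hk1
    · exact h1
    · exact absurd rfl hk2
  · refine sw 0 1 (by decide) h0 h1 ?_
    intro k hk1 hk2; fin_cases k
    · exact absurd rfl hk1
    · exact absurd rfl hk2
    · exact h2
  · exfalso; obtain ⟨a, ha⟩ := h0; obtain ⟨b, hb⟩ := h1; obtain ⟨c, hc⟩ := h2; omega

theorem eq_case (s : Fin 3 → ℕ) (i j : Fin 3) (hij : i ≠ j) (h : s i = s j) : Pourable 1 s := by
  let t : Fin 3 → ℕ := fun k => if k = i then 2 * s i else if k = j then s j - s i else s k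
  have hti : t i = 2 * s i := by simp [t]
  have htj : t j = s j - s i := by simp [t, hij.symm]
  have htk : ∀ k, k ≠ i → k ≠ j → t k = s k := by intro k h1 h2; simp [t, h1, h2]
  exact Or.inr ⟨t, ⟨i, j, hij, h.le, hti, htj, htk⟩, ⟨j, by rw [htj, h, Nat.sub_self]⟩⟩

/-- Total `5`: two of the three entries are equal. -/
theorem good_five : 5 ∈ Good 1 := by
  refine ⟨by norm_num, ?_⟩
  intro s hpos hs
  have p0 := hpos 0
  have p1 := hpos 1
  have p2 := hpos 2
  by_cases h01 : s 0 = s 1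
  · exact eq_case s 0 1 (by decide) h01
  by_cases h02 : s 0 = s 2
  · exact eq_case s 0 2 (by decide) h02
  by_cases h12 : s 1 = s 2
  · exact eq_case s 1 2 (by decide) h12
  omega

theorem good_main : ∀ N : ℕ, 5 * 2 ^ N ∈ Good (N + 1)
  | 0 => by simpa using good_five
  | N + 1 => by
      have h := good_double (good_main N)
      have he : 2 * (5 * 2 ^ N) = 5 * 2 ^ (N + 1) := by ring
      rwa [he] at h

/-- For every `N ≥ 1`, every state of three positive integers with total `5·2^(N-1)` is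
`N`-pourable, so that `h(N,3) ≥ 5·2^(N-1)`; moreover totals can be doubled at the cost of one
step. -/
theorem result :
    (∀ N : ℕ, 1 ≤ N → 5 * 2 ^ (N - 1) ∈ Good N) ∧
    (∀ N M : ℕ, 1 ≤ N → IsGreatest (Good N) M → 5 * 2 ^ (N - 1) ≤ M) ∧
    (∀ N n : ℕ, n ∈ Good N → 2 * n ∈ Good (N + 1)) := by
  have h1 : ∀ N : ℕ, 1 ≤ N → 5 * 2 ^ (N - 1) ∈ Good N := by
    intro N hN
    obtain ⟨k, rfl⟩ : ∃ k, N = k + 1 := ⟨N - 1, by omega⟩
    simpa using good_main k
  exact ⟨h1, fun N M hN hM => hM.2 (h1 N hN), fun N n h => good_double h⟩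

end Pool.Agent.Results.MP_4ebd9a_co.LowerBound
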